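import Pool.Agent.Helper26.MCE.GoalsB

set_option autoImplicit false

/-!
# Project MCE (MP_d8224a_co), packet SPB: the probability of spoiling
-/

namespace Pool.Agent.Helper54.MCE

open Finset Pool.Agent.Helper87.MC Pool.Agent.Helper26.MCE

section aux

variable {G : Type} [AddCommGroup G] [Fintype G]

open Classical in
theorem card_sub (K : AddSubgroup G) : (univ.filter fun x : G => x ∈ K).card = Nat.card K := by
  rw [Nat.card_eq_fintype_card, Fintype.card_subtype]

theorem nf_of_notMem {D : Finset G} {K : AddSubgroup G} {z : G} (h : z ∉ full D K) :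
    NF D K z := by
  classical
  by_contra hn
  apply h
  unfold full
  rw [mem_filter]
  have h1 : ∀ x ∈ K, z + x ∈ D := by
    intro x hx
    by_contra h2
    exact hn ⟨x, hx, h2⟩
  exact ⟨by simpa using h1 0 K.zero_mem, h1⟩

omit [Fintype G] in
theorem anti_le {s : ℕ} {K : ℕ → AddSubgroup G} (h : ∀ i < s, K (i + 1) ≤ K i) {i j : ℕ}
    (hij : i ≤ j) (hj : j ≤ s) : K j ≤ K i := by
  induction j, hij using Nat.le_induction with
  | base => exact le_rfl
  | succ n hn ih => exact (h n (by omega)).trans (ih (by omega))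

end aux

open Classical in
/-- One foreign leaf. -/
theorem one_leaf (h1 : G_POS) (h2 : G_ONE) (G : Type) [AddCommGroup G] [Fintype G] (s : ℕ)
    (V : Type) [Fintype V] (D : Finset G) (K : ℕ → AddSubgroup G) (f : ℕ → ℕ) (c : ℕ → V → V)
    (hanti : ∀ i < s, K (i + 1) ≤ K i)
    (href : ∀ i < s, ∀ v v', c (i + 1) v = c (i + 1) v' → c i v = c i v')
    (hfib : ∀ i ≤ s, ∀ x, NF D (K i) x → (fib D (K i) x).card ≤ f i)
    (i : ℕ) (hi : i < s) (v v' : V) (z h : G) (hz : NF D (K (i + 1)) z) (hh : h ∈ K (i + 1))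
    (l : ℕ) (hl : l ≤ i) (hc : c l v' = c l v) (hc' : c (l + 1) v' ≠ c (l + 1) v) :
    ((Om s V K).filter fun ω => Cov D c ω v' (pos c ω v + z + h)).card * Nat.card (K l) ≤
      f l * (Om s V K).card := by
  obtain ⟨hP1, hP2, -, -⟩ := h1 G s V K c hanti href
  have hls : l < s := by omega
  obtain ⟨S1, hS1⟩ : ∃ S1 : (Fin s × V → G) → Prop, ∀ ω, S1 ω := ⟨fun _ => True, fun _ => trivial⟩
  have key := (h2 G s V D K c f ⟨l, hls⟩ v' S1 (fun ω => pos c ω v + z + h) hanti href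
    (hfib l hls.le) ?_).1 ?_
  · have e2 : ((Om s V K).filter fun ω => Cov D c ω v' (pos c ω v + z + h)) =
        (Om s V K).filter fun ω => S1 ω ∧ pos c ω v + z + h - pos c ω v' ∈ D := by
      refine filter_congr fun ω _ => ?_
      simp only [hS1, true_and, Cov]
    rw [e2]
    exact key.trans (Nat.mul_le_mul_left _ (card_filter_le _ _))
  · intro ω hω x hx
    refine ⟨iff_of_true (hS1 _) (hS1 _), ?_⟩
    have := hP2 ω ⟨l, hls⟩ (c (l + 1) v') x v hc'.symm
    show pos c (Function.update ω (⟨l, hls⟩, c (l + 1) v') x) v + z + h = pos c ω v + z + h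
    rw [this]
  · intro ω hω _
    obtain ⟨h0, hh0, hD⟩ := hz
    have hKl : K (i + 1) ≤ K l := anti_le hanti (by omega) (by omega)
    have h3 : pos c ω v - pos c ω v' ∈ K l := hP1 ω hω l hls.le v v' hc.symm
    refine ⟨h0 - h - (pos c ω v - pos c ω v'), ?_, ?_⟩
    · exact (K l).sub_mem ((K l).sub_mem (hKl hh0) (hKl hh)) h3
    · have e : pos c ω v + z + h - pos c ω v' + (h0 - h - (pos c ω v - pos c ω v')) = z + h0 := by
        abel
      show pos c ω v + z + h - pos c ω v' + (h0 - h - (pos c ω v - pos c ω v')) ∉ D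
      rw [e]
      exact hD

open Classical in
/-- All foreign leaves of one level. -/
theorem level_sum (h1 : G_POS) (h2 : G_ONE) (G : Type) [AddCommGroup G] [Fintype G] (s : ℕ)
    (V : Type) [Fintype V] (D : Finset G) (K : ℕ → AddSubgroup G) (f : ℕ → ℕ) (c : ℕ → V → V)
    (ρ : ℕ → ℝ) (hρ : ∀ i, 0 < ρ i)
    (hanti : ∀ i < s, K (i + 1) ≤ K i)
    (href : ∀ i < s, ∀ v v', c (i + 1) v = c (i + 1) v' → c i v = c i v')
    (hfib : ∀ i ≤ s, ∀ x, NF D (K i) x → (fib D (K i) x).card ≤ f i)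
    (hup : ∀ v, ∀ i < s,
      ((univ.filter fun v' => c i v' = c i v).card : ℝ) * f i ≤ ρ i * Nat.card (K i) ∨
      ∀ v', c i v' = c i v → c (i + 1) v' = c (i + 1) v)
    (i : ℕ) (hi : i < s) (v : V) (z h : G) (hz : NF D (K (i + 1)) z) (hh : h ∈ K (i + 1))
    (l : ℕ) (hl : l ≤ i) :
    ∑ v' ∈ univ.filter (fun v' => c l v' = c l v ∧ c (l + 1) v' ≠ c (l + 1) v),
      (((Om s V K).filter fun ω => Cov D c ω v' (pos c ω v + z + h)).card : ℝ) ≤
      ρ l * (Om s V K).card := by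
  have hls : l < s := by omega
  have hK : (0 : ℝ) < Nat.card (K l) := by exact_mod_cast Nat.card_pos
  have hle : ∀ v' ∈ univ.filter (fun v' => c l v' = c l v ∧ c (l + 1) v' ≠ c (l + 1) v),
      (((Om s V K).filter fun ω => Cov D c ω v' (pos c ω v + z + h)).card : ℝ) ≤
        f l * (Om s V K).card / Nat.card (K l) := by
    intro v' hv'
    have hv'' := (mem_filter.1 hv').2
    rw [le_div_iff₀ hK]
    have := one_leaf h1 h2 G s V D K f c hanti href hfib i hi v v' z h hz hh l hl hv''.1 hv''.2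
    exact_mod_cast this
  refine (sum_le_card_nsmul _ _ _ hle).trans ?_
  rw [nsmul_eq_mul, mul_div_assoc', div_le_iff₀ hK]
  rcases hup v l hls with h3 | h3
  · have h4 : ((univ.filter (fun v' => c l v' = c l v ∧ c (l + 1) v' ≠ c (l + 1) v)).card : ℝ) ≤
        ((univ.filter fun v' => c l v' = c l v).card : ℝ) := by
      have h7 : univ.filter (fun v' => c l v' = c l v ∧ c (l + 1) v' ≠ c (l + 1) v) ⊆
          univ.filter fun v' => c l v' = c l v := by
        intro x hx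
        rw [mem_filter] at hx ⊢
        exact ⟨hx.1, hx.2.1⟩
      exact_mod_cast card_le_card h7
    have h5 : (0 : ℝ) ≤ f l := Nat.cast_nonneg _
    have h6 : (0 : ℝ) ≤ (Om s V K).card := Nat.cast_nonneg _
    calc _ = ((univ.filter (fun v' => c l v' = c l v ∧ c (l + 1) v' ≠ c (l + 1) v)).card : ℝ) *
          f l * (Om s V K).card := by ring
      _ ≤ ((univ.filter fun v' => c l v' = c l v).card : ℝ) * f l * (Om s V K).card :=
          mul_le_mul_of_nonneg_right (mul_le_mul_of_nonneg_right h4 h5) h6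
      _ ≤ ρ l * Nat.card (K l) * (Om s V K).card := mul_le_mul_of_nonneg_right h3 h6
      _ = _ := by ring
  · have h4 : univ.filter (fun v' => c l v' = c l v ∧ c (l + 1) v' ≠ c (l + 1) v) = ∅ := by
      refine filter_false_of_mem fun v' _ hv' => hv'.2 (h3 v' hv'.1)
    rw [h4, card_empty, Nat.cast_zero, zero_mul]
    have := (hρ l).le
    positivity

open Classical in
/-- The expected number of covered points of the coset. -/
theorem cover_sum (h1 : G_POS) (h2 : G_ONE) (G : Type) [AddCommGroup G] [Fintype G] (s : ℕ)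
    (V : Type) [Fintype V] (D : Finset G) (K : ℕ → AddSubgroup G) (f : ℕ → ℕ) (c : ℕ → V → V)
    (ρ : ℕ → ℝ) (hρ : ∀ i, 0 < ρ i)
    (hanti : ∀ i < s, K (i + 1) ≤ K i)
    (h0 : ∀ v v', c 0 v = c 0 v') (hcs : ∀ v, c s v = v)
    (href : ∀ i < s, ∀ v v', c (i + 1) v = c (i + 1) v' → c i v = c i v')
    (hfib : ∀ i ≤ s, ∀ x, NF D (K i) x → (fib D (K i) x).card ≤ f i)
    (hup : ∀ v, ∀ i < s,
      ((univ.filter fun v' => c i v' = c i v).card : ℝ) * f i ≤ ρ i * Nat.card (K i) ∨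
      ∀ v', c i v' = c i v → c (i + 1) v' = c (i + 1) v)
    (i : ℕ) (hi : i < s) (v : V) (z : G) (hz : NF D (K (i + 1)) z) :
    ∑ ω ∈ Om s V K, (((univ.filter fun x : G => x ∈ K (i + 1)).filter fun h =>
        ∃ v', c (i + 1) v' ≠ c (i + 1) v ∧ Cov D c ω v' (pos c ω v + z + h)).card : ℝ) ≤
      Nat.card (K (i + 1)) * ((∑ l ∈ range (i + 1), ρ l) * (Om s V K).card) := by
  obtain ⟨-, -, -, hP4⟩ := h1 G s V K c hanti href
  have hpt : ∀ ω ∈ Om s V K, (((univ.filter fun x : G => x ∈ K (i + 1)).filter fun h =>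
        ∃ v', c (i + 1) v' ≠ c (i + 1) v ∧ Cov D c ω v' (pos c ω v + z + h)).card : ℝ) ≤
      ∑ h ∈ univ.filter (fun x : G => x ∈ K (i + 1)), ∑ l ∈ range (i + 1),
        ∑ v' ∈ univ.filter (fun v' => c l v' = c l v ∧ c (l + 1) v' ≠ c (l + 1) v),
          (if Cov D c ω v' (pos c ω v + z + h) then (1 : ℝ) else 0) := by
    intro ω _
    rw [card_filter]
    push_cast
    refine sum_le_sum fun h _ => ?_
    by_cases hex : ∃ v', c (i + 1) v' ≠ c (i + 1) v ∧ Cov D c ω v' (pos c ω v + z + h)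
    · rw [if_pos hex]
      obtain ⟨v', hv', hcov⟩ := hex
      have hne : c s v ≠ c s v' := by
        rw [hcs, hcs]
        rintro rfl
        exact hv' rfl
      obtain ⟨l, hls, hl1, hl2, hl3, -⟩ := hP4 v v' (h0 v v') hne
      have hli : l ≤ i := by
        by_contra hcon
        exact hv' (hl3 (i + 1) (by omega)).symm
      have hmem : v' ∈ univ.filter (fun v' => c l v' = c l v ∧ c (l + 1) v' ≠ c (l + 1) v) :=
        mem_filter.2 ⟨mem_univ _, hl1.symm, fun h => hl2 h.symm⟩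
      have hnn : ∀ l' ∈ range (i + 1), (0 : ℝ) ≤
          ∑ v' ∈ univ.filter (fun v' => c l' v' = c l' v ∧ c (l' + 1) v' ≠ c (l' + 1) v),
            (if Cov D c ω v' (pos c ω v + z + h) then (1 : ℝ) else 0) :=
        fun l' _ => sum_nonneg fun v' _ => by split_ifs <;> norm_num
      have hnn2 : ∀ v' ∈ univ.filter (fun v' => c l v' = c l v ∧ c (l + 1) v' ≠ c (l + 1) v),
          (0 : ℝ) ≤ (if Cov D c ω v' (pos c ω v + z + h) then (1 : ℝ) else 0) :=
        fun v' _ => by split_ifs <;> norm_num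
      have h5 := single_le_sum hnn (mem_range.2 (show l < i + 1 by omega))
      have h6 := single_le_sum hnn2 hmem
      rw [if_pos hcov] at h6
      exact h6.trans h5
    · rw [if_neg hex]
      exact sum_nonneg fun l' _ => sum_nonneg fun v' _ => by split_ifs <;> norm_num
  refine (sum_le_sum hpt).trans ?_
  rw [sum_comm]
  have hh : ∀ h ∈ univ.filter (fun x : G => x ∈ K (i + 1)),
      ∑ ω ∈ Om s V K, ∑ l ∈ range (i + 1),
        ∑ v' ∈ univ.filter (fun v' => c l v' = c l v ∧ c (l + 1) v' ≠ c (l + 1) v),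
          (if Cov D c ω v' (pos c ω v + z + h) then (1 : ℝ) else 0) ≤
        (∑ l ∈ range (i + 1), ρ l) * (Om s V K).card := by
    intro h hh
    have hh' := (mem_filter.1 hh).2
    rw [sum_comm, sum_mul]
    refine sum_le_sum fun l hl => ?_
    have hl' : l ≤ i := by
      have := mem_range.1 hl
      omega
    rw [sum_comm]
    have e : ∀ v' ∈ univ.filter (fun v' => c l v' = c l v ∧ c (l + 1) v' ≠ c (l + 1) v),
        ∑ ω ∈ Om s V K, (if Cov D c ω v' (pos c ω v + z + h) then (1 : ℝ) else 0) =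
          (((Om s V K).filter fun ω => Cov D c ω v' (pos c ω v + z + h)).card : ℝ) := by
      intro v' _
      rw [card_filter]
      push_cast
      rfl
    rw [sum_congr rfl e]
    exact level_sum h1 h2 G s V D K f c ρ hρ hanti href hfib hup i hi v z h hz hh' l hl'
  refine (sum_le_card_nsmul _ _ _ hh).trans ?_
  rw [nsmul_eq_mul, card_sub]

open Classical in
/-- If the coset is covered, the foreign leaves cover at least half of it. -/
theorem half (h3 : G_DC) (G : Type) [AddCommGroup G] [Fintype G] (s : ℕ) (V : Type) [Fintype V]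
    (D : Finset G) (K : ℕ → AddSubgroup G) (f : ℕ → ℕ) (B : ℕ → Finset G) (ρ ρh : ℕ → ℝ)
    (t L2 : ℝ) (c : ℕ → V → V) (ty : V → ℕ) (m : ℕ) (lam : ℕ → ℕ)
    (hC : Chain D s K f B ρ ρh t L2) (hF : Forest s V c ty f (fun i => Nat.card (K i)) ρ m lam)
    (hρ : ∀ i, 0 < ρ i) (hsum : ∑ i ∈ range s, ρ i ≤ 1 / 2) (i : ℕ) (hi : i < s) (v : V) (z : G)
    (hNF : NF D (K (i + 1)) z) (ω : Fin s × V → G) (hω : ω ∈ Om s V K)
    (hcv : ∀ h ∈ K (i + 1), ∃ v', Cov D c ω v' (pos c ω v + (z + h))) :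
    (Nat.card (K (i + 1)) : ℝ) / 2 ≤
        (((univ.filter fun x : G => x ∈ K (i + 1)).filter fun h =>
        ∃ v', c (i + 1) v' ≠ c (i + 1) v ∧ Cov D c ω v' (pos c ω v + z + h)).card : ℝ) := by
  have hρ0 : ∀ l, 0 ≤ ρ l := fun l => (hρ l).le
  have hdc := h3 G s V D K f B ρ ρh t L2 c ty m lam hC hF hρ ω hω (i + 1) (by omega)
    (by omega) v (pos c ω v + z) (by rw [add_sub_cancel_left]; exact hNF)
  have hIco : ∑ j ∈ Ico (i + 1) s, ρ j ≤ 1 / 2 := by
    refine le_trans (sum_le_sum_of_subset_of_nonneg ?_ fun j _ _ => hρ0 j) hsum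
    intro j hj
    rw [mem_Ico] at hj
    exact mem_range.2 hj.2
  have hK0 : (0 : ℝ) ≤ Nat.card (K (i + 1)) := Nat.cast_nonneg _
  have hdc2 := hdc.trans (mul_le_mul_of_nonneg_right hIco hK0)
  have hinj : ((univ.filter fun x : G => x ∈ K (i + 1)).filter fun h =>
      ∃ v', c (i + 1) v' = c (i + 1) v ∧ Cov D c ω v' (pos c ω v + z + h)).card ≤
      (univ.filter fun y => y - (pos c ω v + z) ∈ K (i + 1) ∧
      ∃ v', c (i + 1) v' = c (i + 1) v ∧ Cov D c ω v' y).card := by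
    refine card_le_card_of_injOn (fun h => pos c ω v + z + h) ?_ ?_
    · intro h hh
      have hh' := mem_filter.1 (mem_coe.1 hh)
      have hh'' := (mem_filter.1 hh'.1).2
      rw [mem_coe, mem_filter]
      refine ⟨mem_univ _, ?_, hh'.2⟩
      rw [add_sub_cancel_left]
      exact hh''
    · intro a _ b _ hab
      exact add_left_cancel hab
  have hcov : (univ.filter fun x : G => x ∈ K (i + 1)) ⊆
      ((univ.filter fun x : G => x ∈ K (i + 1)).filter fun h =>
        ∃ v', c (i + 1) v' = c (i + 1) v ∧ Cov D c ω v' (pos c ω v + z + h)) ∪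
      ((univ.filter fun x : G => x ∈ K (i + 1)).filter fun h =>
        ∃ v', c (i + 1) v' ≠ c (i + 1) v ∧ Cov D c ω v' (pos c ω v + z + h)) := by
    intro h hh
    obtain ⟨v', hv'⟩ := hcv h (mem_filter.1 hh).2
    rw [← add_assoc] at hv'
    rw [mem_union]
    by_cases hcc : c (i + 1) v' = c (i + 1) v
    · exact Or.inl (mem_filter.2 ⟨hh, v', hcc, hv'⟩)
    · exact Or.inr (mem_filter.2 ⟨hh, v', hcc, hv'⟩)
  have h7 := (card_le_card hcov).trans (card_union_le _ _)
  rw [card_sub] at h7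
  have h8 := h7.trans (Nat.add_le_add_right hinj _)
  have h9 : (Nat.card (K (i + 1)) : ℝ) ≤
      ((univ.filter fun y => y - (pos c ω v + z) ∈ K (i + 1) ∧
      ∃ v', c (i + 1) v' = c (i + 1) v ∧ Cov D c ω v' y).card : ℝ) +
      (((univ.filter fun x : G => x ∈ K (i + 1)).filter fun h =>
        ∃ v', c (i + 1) v' ≠ c (i + 1) v ∧ Cov D c ω v' (pos c ω v + z + h)).card : ℝ) := by
    exact_mod_cast h8
  linarith

theorem arith (E K S O X Y : ℝ) (hK : 0 < K) (h1 : E * (K / 2) ≤ X) (h2 : X ≤ Y)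
    (h3 : Y ≤ K * (S * O)) : E ≤ 2 * S * O := by
  have h4 : E * (K / 2) ≤ K * (S * O) := h1.trans (h2.trans h3)
  have h5 : K * E ≤ K * (2 * S * O) := by
    calc K * E = 2 * (E * (K / 2)) := by ring
      _ ≤ 2 * (K * (S * O)) := by linarith
      _ = K * (2 * S * O) := by ring
  exact le_of_mul_le_mul_left h5 hK

open Classical in
/-- The number of the points at which the coset is covered. -/
theorem event (h1 : G_POS) (h2 : G_ONE) (h3 : G_DC) (G : Type) [AddCommGroup G] [Fintype G]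
    (s : ℕ) (V : Type) [Fintype V]
    (D : Finset G) (K : ℕ → AddSubgroup G) (f : ℕ → ℕ) (B : ℕ → Finset G) (ρ ρh : ℕ → ℝ)
    (t L2 : ℝ) (c : ℕ → V → V) (ty : V → ℕ) (m : ℕ) (lam : ℕ → ℕ)
    (hC : Chain D s K f B ρ ρh t L2) (hF : Forest s V c ty f (fun i => Nat.card (K i)) ρ m lam)
    (hρ : ∀ i, 0 < ρ i) (hsum : ∑ i ∈ range s, ρ i ≤ 1 / 2) (i : ℕ) (hi : i < s) (v : V) (z : G)
    (hNF : NF D (K (i + 1)) z) (T : (Fin s × V → G) → Set G)
    (hT : ∀ ω x, x ∈ T ω ↔ ∃ v', Cov D c ω v' (pos c ω v + x)) :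
    (((Om s V K).filter fun ω => ∀ h ∈ K (i + 1), z + h ∈ T ω).card : ℝ) ≤
      2 * (∑ l ∈ range (i + 1), ρ l) * (Om s V K).card := by
  have hK : (0 : ℝ) < Nat.card (K (i + 1)) := by exact_mod_cast Nat.card_pos
  obtain ⟨E, hE⟩ : ∃ E, E = (Om s V K).filter fun ω => ∀ h ∈ K (i + 1), z + h ∈ T ω := ⟨_, rfl⟩
  rw [← hE]
  have hbig : ∀ ω ∈ E, (Nat.card (K (i + 1)) : ℝ) / 2 ≤
      (((univ.filter fun x : G => x ∈ K (i + 1)).filter fun h =>
      ∃ v', c (i + 1) v' ≠ c (i + 1) v ∧ Cov D c ω v' (pos c ω v + z + h)).card : ℝ) := by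
    intro ω hω
    rw [hE, mem_filter] at hω
    exact half h3 G s V D K f B ρ ρh t L2 c ty m lam hC hF hρ hsum i hi v z hNF ω hω.1
      (fun h hh => (hT ω _).1 (hω.2 h hh))
  have hEsub : E ⊆ Om s V K := by rw [hE]; exact filter_subset _ _
  have hsumE := card_nsmul_le_sum E _ _ hbig
  rw [nsmul_eq_mul] at hsumE
  have hsub : ∑ ω ∈ E, (((univ.filter fun x : G => x ∈ K (i + 1)).filter fun h =>
      ∃ v', c (i + 1) v' ≠ c (i + 1) v ∧ Cov D c ω v' (pos c ω v + z + h)).card : ℝ) ≤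
      ∑ ω ∈ Om s V K, (((univ.filter fun x : G => x ∈ K (i + 1)).filter fun h =>
      ∃ v', c (i + 1) v' ≠ c (i + 1) v ∧ Cov D c ω v' (pos c ω v + z + h)).card : ℝ) :=
    sum_le_sum_of_subset_of_nonneg hEsub fun _ _ _ => Nat.cast_nonneg _
  have hcs := cover_sum h1 h2 G s V D K f c ρ hρ hC.anti hF.c0 hF.cs hF.ref hC.fib_le hF.up
    i hi v z hNF
  exact arith _ _ _ _ _ _ hK hsumE hsub hcs

open Classical in
theorem goalSPB (h1 : G_POS) (h2 : G_ONE) (h3 : G_DC) (h4 : G_NS) : G_SPB := by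
  intro G _ _ s V _ D K f B ρ ρh t L2 c ty m lam hC hF hρ hρh hsum i hi v
  have hρ0 : ∀ l, 0 ≤ ρ l := fun l => (hρ l).le
  have hs0 : 0 ≤ 2 * ∑ l ∈ range (i + 1), ρ l :=
    mul_nonneg (by norm_num) (sum_nonneg fun l _ => hρ0 l)
  obtain ⟨T, hT⟩ : ∃ T : (Fin s × V → G) → Set G, ∀ ω x, x ∈ T ω ↔
      ∃ v', Cov D c ω v' (pos c ω v + x) :=
    ⟨fun ω => {x | ∃ v', Cov D c ω v' (pos c ω v + x)}, fun _ _ => Iff.rfl⟩
  have key := h4 G D (B i) (K i) (K (i + 1)) (2 * t) (ρh i) (2 * ∑ l ∈ range (i + 1), ρ l)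
    (Fin s × V → G) (Om s V K) T (hC.nosp i hi) hs0 (hρh i)
    (fun z hz => event h1 h2 h3 G s V D K f B ρ ρh t L2 c ty m lam hC hF hρ hsum i hi v z
      (nf_of_notMem hz) T hT)
  refine le_trans (mul_le_mul_of_nonneg_left ?_ (hρh i).le) key
  have hsub : ((Om s V K).filter fun ω => Spoil D K B t c i ω v) ⊆
      (Om s V K).filter fun ω => ∃ w, w ∈ K i ∧ w ∉ K (i + 1) ∧
        ((B i).card : ℝ) ≤ 2 * t * rr (B i) w ∧
        ∀ z ∈ full D (K (i + 1)), w + z ∉ full D (K (i + 1)) → w + z ∈ T ω := by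
    intro ω hω
    rw [mem_filter] at hω ⊢
    obtain ⟨hω1, w, hw1, hw2, hw3, hw4⟩ := hω
    refine ⟨hω1, w, hw1, hw2, hw3, fun z hz _ => ?_⟩
    obtain ⟨v', hv'⟩ := hw4 z hz
    rw [hT]
    refine ⟨v', ?_⟩
    rw [← add_assoc]
    exact hv'
  exact_mod_cast card_le_card hsub

end Pool.Agent.Helper54.MCE
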